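import Pool.Agent.W312.T3.Stm2

/-!
# Tree 3-spanners of chordal graphs: a perfect elimination order in polynomial time
-/

set_option autoImplicit false

namespace Pool.Agent.NPC.W168T3

open Pool.Agent.H673R2.Ts Pool.Agent.NPC Pool.Agent.H255R3.STC Pool.Agent.W312.T3

/-- Adjacency. -/
def adjB (es : List (ℕ × ℕ)) (u v : ℕ) : Bool :=
  !decide (u = v) && (decide ((u, v) ∈ es) || decide ((v, u) ∈ es))

/-- The vertex `v` is simplicial in the list. -/
def simpB (es : List (ℕ × ℕ)) (rem : List ℕ) (v : ℕ) : Bool :=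
  rem.all fun x => rem.all fun y =>
    !(adjB es v x && (adjB es v y && !decide (x = y))) || adjB es x y

/-- One step: move the first simplicial vertex. -/
def step (es : List (ℕ × ℕ)) (s : List ℕ × List ℕ) : List ℕ × List ℕ :=
  match s.1.filter (fun v => simpB es s.1 v) with
  | [] => s
  | v :: _ => (s.1.filter (fun x => !decide (x = v)), v :: s.2)

/-- The list of the vertices. -/
def verts (I : Inst) : List ℕ := (List.range (I.2.length + 1)).filter (fun x => decide (x < I.1))

/-- The order. -/
def oo (I : Inst) : List ℕ := ((step I.2)^[(verts I).length] (verts I, [])).2.reverse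

/-- All pairs of two lists. -/
def prodL (l l' : List ℕ) : List (ℕ × ℕ) := l.flatMap fun b => l'.map fun c => (b, c)

/-- The graph in the new order. -/
def ordF (I : Inst) : Inst :=
  ((oo I).length, (prodL (List.range (oo I).length) (List.range (oo I).length)).filter
    (fun p => decide (p.1 < p.2) && adjB I.2 ((oo I).getD p.1 0) ((oo I).getD p.2 0)))

/-! ### Polynomial time -/

theorem poly_adjB {α : Type} [TEnc α] {e : α → List (ℕ × ℕ)} {u v : α → ℕ} (he : Poly e)
    (hu : Poly u) (hv : Poly v) : Poly (fun a => adjB (e a) (u a) (v a)) := by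
  refine (Poly.and (Poly.not (Poly.decide_eq hu hv)) (Poly.or (Poly.decide_mem (Poly.pair hu hv) he)
    (Poly.decide_mem (Poly.pair hv hu) he))).congr fun a => ?_
  unfold adjB
  rw [Bool.eq_iff_iff]
  simp

theorem poly_simpB {α : Type} [TEnc α] {e : α → List (ℕ × ℕ)} {r : α → List ℕ} {v : α → ℕ}
    (he : Poly e) (hr : Poly r) (hv : Poly v) : Poly (fun a => simpB (e a) (r a) (v a)) := by
  unfold simpB
  refine Poly.all (p := fun a x => (r a).all fun y =>
    !(adjB (e a) (v a) x && (adjB (e a) (v a) y && !decide (x = y))) || adjB (e a) x y) hr ?_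
  refine Poly.all (l := fun q : α × ℕ => r q.1) (p := fun q y =>
    !(adjB (e q.1) (v q.1) q.2 && (adjB (e q.1) (v q.1) y && !decide (q.2 = y))) ||
      adjB (e q.1) q.2 y) (hr.comp (Poly.fst Poly.id)) ?_
  have h1 : Poly (fun t : (α × ℕ) × ℕ => e t.1.1) := he.comp (Poly.fst (Poly.fst Poly.id))
  have h2 : Poly (fun t : (α × ℕ) × ℕ => v t.1.1) := hv.comp (Poly.fst (Poly.fst Poly.id))
  have h3 : Poly (fun t : (α × ℕ) × ℕ => t.1.2) := Poly.snd (Poly.fst Poly.id)
  have h4 : Poly (fun t : (α × ℕ) × ℕ => t.2) := Poly.snd Poly.id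
  exact Poly.or (Poly.not (Poly.and (poly_adjB h1 h2 h3) (Poly.and (poly_adjB h1 h2 h4)
    (Poly.not (Poly.decide_eq h3 h4))))) (poly_adjB h1 h3 h4)

theorem poly_step : Poly (fun p : List (ℕ × ℕ) × (List ℕ × List ℕ) => step p.1 p.2) := by
  unfold step
  have h0 : Poly (fun p : List (ℕ × ℕ) × (List ℕ × List ℕ) => p.2.1) :=
    Poly.fst (Poly.snd Poly.id)
  refine (Poly.listCases (l := fun p : List (ℕ × ℕ) × (List ℕ × List ℕ) =>
      p.2.1.filter (fun v => simpB p.1 p.2.1 v)) (g := fun p => p.2)
      (h := fun p v _ => (p.2.1.filter (fun x => !decide (x = v)), v :: p.2.2)) ?_ ?_ ?_).congr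
      fun p => ?_
  · refine Poly.filter (p := fun (q : List (ℕ × ℕ) × (List ℕ × List ℕ)) v =>
      simpB q.1 q.2.1 v) h0 ?_
    exact poly_simpB (Poly.fst (Poly.fst Poly.id)) (h0.comp (Poly.fst Poly.id)) (Poly.snd Poly.id)
  · exact Poly.snd Poly.id
  · refine Poly.pair ?_ (Poly.cons (Poly.fst (Poly.snd Poly.id))
      (Poly.snd (Poly.snd (Poly.fst Poly.id))))
    refine Poly.filter (l := fun t : (List (ℕ × ℕ) × (List ℕ × List ℕ)) × ℕ × List ℕ => t.1.2.1)
      (p := fun t x => !decide (x = t.2.1)) (h0.comp (Poly.fst Poly.id)) ?_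
    exact Poly.not (Poly.decide_eq (Poly.snd Poly.id) (Poly.fst (Poly.snd (Poly.fst Poly.id))))
  · cases h : List.filter (fun v => simpB p.1 p.2.1 v) p.2.1 <;> rfl

theorem poly_verts : Poly verts := by
  unfold verts
  have h1 : Poly (fun I : Inst => List.range (I.2.length + 1)) :=
    (Poly.range_length (l := fun I : Inst => (0, 0) :: I.2)
      (Poly.cons (Poly.const (0, 0)) (Poly.snd Poly.id))).congr fun I => by simp
  exact Poly.filter (p := fun (I : Inst) x => decide (x < I.1)) h1
    (Poly.decide_lt (Poly.snd Poly.id) (Poly.fst (Poly.fst Poly.id)))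

theorem sz_filter_le {α : Type} [TEnc α] (p : α → Bool) (l : List α) :
    sz (l.filter p) ≤ sz l := by
  induction l with
  | nil => simp
  | cons a l ih =>
    rw [List.filter_cons]
    split_ifs
    · simp; omega
    · simp; omega

theorem sz_filter_ne (v : ℕ) (l : List ℕ) (h : v ∈ l) :
    sz (l.filter (fun x => !decide (x = v))) + sz v + 1 ≤ sz l := by
  induction l with
  | nil => simp at h
  | cons a l ih =>
    rw [List.filter_cons]
    by_cases hav : a = v
    · subst hav
      have := sz_filter_le (fun x => !decide (x = a)) l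
      simp only [decide_true, Bool.not_true, Bool.false_eq_true, if_false, sz_list_cons]
      omega
    · have hv : v ∈ l := by
        rcases List.mem_cons.1 h with h | h
        · exact absurd h.symm hav
        · exact h
      have := ih hv
      simp only [hav, decide_false, Bool.not_false, if_true, sz_list_cons]
      omega

theorem sz_step (es : List (ℕ × ℕ)) (s : List ℕ × List ℕ) : sz (step es s) ≤ sz s := by
  unfold step
  cases h : s.1.filter (fun v => simpB es s.1 v) with
  | nil => simp
  | cons v t =>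
    have hv : v ∈ s.1 := by
      have : v ∈ s.1.filter (fun v => simpB es s.1 v) := by rw [h]; simp
      exact (List.mem_filter.1 this).1
    have h1 := sz_filter_ne v s.1 hv
    have h2 : sz s = sz s.1 + sz s.2 + 1 := sz_pair s.1 s.2
    simp only [sz_pair, sz_list_cons]
    omega

theorem poly_oo : Poly oo := by
  unfold oo
  obtain ⟨r, hr⟩ := poly_verts.sz_le
  refine Poly.reverse (Poly.snd (Poly.iterLen (F := fun (I : Inst) s => step I.2 s)
    (s := fun I => (verts I, [])) poly_verts (Poly.pair poly_verts (Poly.const [])) ?_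
    (r + Polynomial.C 2) ?_))
  · exact poly_step.comp (f := fun t : Inst × (List ℕ × List ℕ) => (t.1.2, t.2))
      (Poly.pair (Poly.snd (Poly.fst Poly.id)) (Poly.snd Poly.id))
  · intro I k _
    have key : ∀ k : ℕ, sz ((step I.2)^[k] (verts I, [])) ≤ sz ((verts I, []) : List ℕ × List ℕ) := by
      intro k
      induction k with
      | zero => exact le_rfl
      | succ k ih =>
        rw [Function.iterate_succ_apply']
        exact (sz_step _ _).trans ih
    refine (key k).trans ?_
    have := hr I
    simp only [sz_pair, sz_list_nil, Polynomial.eval_add, Polynomial.eval_C]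
    omega

theorem poly_ordF : Poly ordF := by
  unfold ordF
  have h1 : Poly (fun I : Inst => List.range (oo I).length) := Poly.range_length poly_oo
  have h2 : Poly (fun I : Inst => prodL (List.range (oo I).length) (List.range (oo I).length)) := by
    unfold prodL
    exact Poly.flatMap (F := fun (I : Inst) b => (List.range (oo I).length).map (fun c => (b, c))) h1
      (Poly.map (l := fun p : Inst × ℕ => List.range (oo p.1).length) (F := fun p c => (p.2, c))
        (h1.comp (Poly.fst Poly.id))
        (Poly.pair (Poly.snd (Poly.fst Poly.id)) (Poly.snd Poly.id)))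
  refine Poly.pair (Poly.length poly_oo) (Poly.filter (p := fun (I : Inst) (p : ℕ × ℕ) =>
    decide (p.1 < p.2) && adjB I.2 ((oo I).getD p.1 0) ((oo I).getD p.2 0)) h2 ?_)
  have h3 : Poly (fun t : Inst × (ℕ × ℕ) => t.2.1) := Poly.fst (Poly.snd Poly.id)
  have h4 : Poly (fun t : Inst × (ℕ × ℕ) => t.2.2) := Poly.snd (Poly.snd Poly.id)
  have h5 : Poly (fun t : Inst × (ℕ × ℕ) => oo t.1) := poly_oo.comp (Poly.fst Poly.id)
  exact Poly.and (Poly.decide_lt h3 h4) (poly_adjB (Poly.snd (Poly.fst Poly.id))
    (Poly.getD h5 h3 (Poly.const 0)) (Poly.getD h5 h4 (Poly.const 0)))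

/-! ### Correctness -/

theorem adjB_iff (es : List (ℕ × ℕ)) (u v : ℕ) :
    adjB es u v = true ↔ u ≠ v ∧ ((u, v) ∈ es ∨ (v, u) ∈ es) := by
  unfold adjB
  simp

theorem adjB_comm (es : List (ℕ × ℕ)) (u v : ℕ) : adjB es u v = adjB es v u := by
  rw [Bool.eq_iff_iff, adjB_iff, adjB_iff]
  constructor
  · rintro ⟨h1, h2⟩
    exact ⟨h1.symm, h2.symm⟩
  · rintro ⟨h1, h2⟩
    exact ⟨h1.symm, h2.symm⟩

theorem graph_adj (I : Inst) (x y : Fin I.1) :
    (graphOf I).Adj x y ↔ adjB I.2 x.val y.val = true := by
  rw [adjB_iff]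
  unfold graphOf
  rw [SimpleGraph.fromRel_adj]
  simp [Fin.ext_iff]

theorem simpB_iff (es : List (ℕ × ℕ)) (rem : List ℕ) (v : ℕ) : simpB es rem v = true ↔
    ∀ x ∈ rem, ∀ y ∈ rem, adjB es v x = true → adjB es v y = true → x ≠ y →
      adjB es x y = true := by
  unfold simpB
  simp only [List.all_eq_true]
  constructor
  · intro h x hx y hy h1 h2 h3
    have := h x hx y hy
    simpa [h1, h2, h3] using this
  · intro h x hx y hy
    have := h x hx y hy
    by_cases h1 : adjB es v x = true
    · by_cases h2 : adjB es v y = true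
      · by_cases h3 : x = y
        · simp [h3]
        · simp [this h1 h2 h3]
      · simp [h2]
    · simp [h1]

/-- A perfect elimination order. -/
def Good (es : List (ℕ × ℕ)) : List ℕ → Prop
  | [] => True
  | v :: l => (∀ x ∈ l, ∀ y ∈ l, adjB es v x = true → adjB es v y = true → x ≠ y →
      adjB es x y = true) ∧ Good es l

theorem Good.get {es : List (ℕ × ℕ)} : ∀ {l : List ℕ}, Good es l → ∀ i j k : ℕ, i < j → i < k →
    j < l.length → k < l.length → adjB es (l.getD i 0) (l.getD j 0) = true →
    adjB es (l.getD i 0) (l.getD k 0) = true → l.getD j 0 ≠ l.getD k 0 →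
    adjB es (l.getD j 0) (l.getD k 0) = true
  | [], _, i, j, k, _, _, hj, _, _, _, _ => by simp at hj
  | v :: l, h, i, j, k, hij, hik, hj, hk, h1, h2, h3 => by
    obtain ⟨j, rfl⟩ : ∃ j', j = j' + 1 := ⟨j - 1, by omega⟩
    obtain ⟨k, rfl⟩ : ∃ k', k = k' + 1 := ⟨k - 1, by omega⟩
    simp only [List.length_cons, Nat.add_lt_add_iff_right] at hj hk
    simp only [List.getD_cons_succ] at h1 h2 h3 ⊢
    cases i with
    | zero =>
      simp only [List.getD_cons_zero] at h1 h2
      refine h.1 _ ?_ _ ?_ h1 h2 h3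
      · rw [List.getD_eq_getElem _ _ hj]
        exact List.getElem_mem _
      · rw [List.getD_eq_getElem _ _ hk]
        exact List.getElem_mem _
    | succ i =>
      simp only [List.getD_cons_succ] at h1 h2
      exact Good.get h.2 i j k (by omega) (by omega) hj hk h1 h2 h3

theorem iter_main {n : ℕ} {es : List (ℕ × ℕ)}
    (HS : ∀ rem : List ℕ, rem ≠ [] → (∀ x ∈ rem, x < n) → ∃ v ∈ rem, simpB es rem v = true) :
    ∀ (k : ℕ) (rem rmv : List ℕ), rem.length = k → rem.Nodup → (∀ x ∈ rem, x < n) →
      ∃ l, (step es)^[k] (rem, rmv) = ([], l.reverse ++ rmv) ∧ l.Perm rem ∧ Good es l := by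
  intro k
  induction k with
  | zero =>
    intro rem rmv hk _ _
    have : rem = [] := List.length_eq_zero_iff.1 hk
    subst this
    exact ⟨[], by simp, List.Perm.refl _, trivial⟩
  | succ k ih =>
    intro rem rmv hk hnd hlt
    obtain ⟨v0, hv0, hs0⟩ := HS rem (by rintro rfl; simp at hk) hlt
    cases h : rem.filter (fun v => simpB es rem v) with
    | nil =>
      have : v0 ∈ rem.filter (fun v => simpB es rem v) := List.mem_filter.2 ⟨hv0, hs0⟩
      rw [h] at this
      simp at this
    | cons v t =>
      have hv : v ∈ rem.filter (fun v => simpB es rem v) := by rw [h]; simp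
      obtain ⟨hv1, hv2⟩ := List.mem_filter.1 hv
      have hstep : step es (rem, rmv) = (rem.filter (fun x => !decide (x = v)), v :: rmv) := by
        unfold step
        simp only [h]
      have her : rem.filter (fun x => !decide (x = v)) = rem.erase v := by
        rw [List.Nodup.erase_eq_filter hnd]
        refine List.filter_congr fun x _ => ?_
        by_cases hx : x = v <;> simp [hx]
      obtain ⟨l, hl1, hl2, hl3⟩ := ih (rem.erase v) (v :: rmv)
        (by rw [List.length_erase_of_mem hv1, hk]; rfl) (hnd.erase v)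
        (fun x hx => hlt x (List.mem_of_mem_erase hx))
      refine ⟨v :: l, ?_, ?_, ?_, hl3⟩
      · rw [Function.iterate_succ_apply, hstep, her, hl1]
        simp
      · exact (hl2.cons v).trans (List.perm_cons_erase hv1).symm
      · intro x hx y hy h1 h2 h3
        rw [simpB_iff] at hv2
        exact hv2 x (List.mem_of_mem_erase (hl2.subset hx)) y
          (List.mem_of_mem_erase (hl2.subset hy)) h1 h2 h3

theorem simp_exists (I : Inst) (hc : IsChordal (graphOf I)) (rem : List ℕ) (h0 : rem ≠ [])
    (hlt : ∀ x ∈ rem, x < I.1) : ∃ v ∈ rem, simpB I.2 rem v = true := by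
  classical
  let s : Finset (Fin I.1) := Finset.univ.filter fun x => x.val ∈ rem
  have hs : ∀ x : Fin I.1, x ∈ s ↔ x.val ∈ rem := fun x => by simp [s]
  have fin : ∀ z ∈ s, (∀ a ∈ s, ∀ b ∈ s, (graphOf I).Adj z a → (graphOf I).Adj z b → a ≠ b →
      (graphOf I).Adj a b) → ∃ v ∈ rem, simpB I.2 rem v = true := by
    intro z hz h
    refine ⟨z.val, (hs z).1 hz, (simpB_iff _ _ _).2 ?_⟩
    intro x hx y hy h1 h2 h3
    have h4 := h ⟨x, hlt x hx⟩ ((hs _).2 hx) ⟨y, hlt y hy⟩ ((hs _).2 hy)
      ((graph_adj I _ _).2 h1) ((graph_adj I _ _).2 h2) (by simpa [Fin.ext_iff] using h3)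
    exact (graph_adj I _ _).1 h4
  by_cases h : ∃ x ∈ s, ∃ y ∈ s, y ≠ x ∧ ¬ (graphOf I).Adj x y
  · obtain ⟨x, hx, y, hy, hyx, hxy⟩ := h
    obtain ⟨z, hz1, _, _, hz2⟩ := exists_simplicial hc s.card s le_rfl x hx y hy hyx hxy
    exact fin z hz1 hz2
  · obtain ⟨v, hv⟩ := List.exists_mem_of_ne_nil _ h0
    refine fin ⟨v, hlt v hv⟩ ((hs _).2 hv) fun a ha b hb _ _ hab => ?_
    by_contra hn
    exact h ⟨a, ha, b, hb, hab.symm, hn⟩

theorem card_le (J : Inst) (hJ : (graphOf J).Connected) : J.1 ≤ J.2.length + 1 := by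
  classical
  have h := hJ.card_vert_le_card_edgeSet_add_one
  rw [Nat.card_eq_fintype_card, Fintype.card_fin] at h
  refine h.trans (Nat.add_le_add_right ?_ 1)
  let f : (graphOf J).edgeSet → (J.2.map (fun p : ℕ × ℕ => s(p.1, p.2))).toFinset := fun e =>
    ⟨Sym2.map Fin.val e.1, by
      obtain ⟨e, he⟩ := e
      induction e using Sym2.ind with
      | h a b =>
        rw [SimpleGraph.mem_edgeSet, graph_adj, adjB_iff] at he
        rw [List.mem_toFinset, List.mem_map]
        rcases he.2 with h | h
        · exact ⟨_, h, rfl⟩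
        · exact ⟨_, h, Sym2.eq_swap⟩⟩
  have hf : Function.Injective f := by
    intro a b hab
    have := congrArg Subtype.val hab
    exact Subtype.ext (Sym2.map.injective Fin.val_injective this)
  calc Nat.card (graphOf J).edgeSet ≤ Nat.card (J.2.map (fun p : ℕ × ℕ => s(p.1, p.2))).toFinset :=
        Nat.card_le_card_of_injective f hf
    _ = (J.2.map (fun p : ℕ × ℕ => s(p.1, p.2))).toFinset.card := by
        rw [Nat.card_eq_fintype_card, Fintype.card_coe]
    _ ≤ (J.2.map (fun p : ℕ × ℕ => s(p.1, p.2))).length := List.toFinset_card_le _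
    _ = J.2.length := by simp

theorem mem_prodL (l l' : List ℕ) (a b : ℕ) : (a, b) ∈ prodL l l' ↔ a ∈ l ∧ b ∈ l' := by
  unfold prodL
  simp

theorem ord : S_ORD := by
  refine ⟨ordF, poly_ordF, fun I hI hc => ?_⟩
  have hn := card_le I hI.2.2
  have hverts : verts I = List.range I.1 := by
    unfold verts
    obtain ⟨m, hm⟩ : ∃ m, I.2.length + 1 = I.1 + m := ⟨_, (Nat.add_sub_cancel' hn).symm⟩
    rw [hm, List.range_add, List.filter_append]
    have h1 : (List.range I.1).filter (fun x => decide (x < I.1)) = List.range I.1 := by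
      rw [List.filter_eq_self]
      intro a ha
      simpa using ha
    have h2 : ((List.range m).map (fun x => I.1 + x)).filter (fun x => decide (x < I.1)) = [] := by
      rw [List.filter_eq_nil_iff]
      intro a ha
      simp only [List.mem_map, List.mem_range] at ha
      obtain ⟨b, _, rfl⟩ := ha
      simp
    rw [h1, h2, List.append_nil]
  obtain ⟨l, hl1, hl2, hl3⟩ := iter_main (n := I.1) (es := I.2) (simp_exists I hc) I.1
    (List.range I.1) [] (by simp) List.nodup_range (fun x hx => by simpa using hx)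
  have hoo : oo I = l := by
    unfold oo
    rw [hverts, List.length_range, hl1]
    simp
  have hlen : l.length = I.1 := by rw [hl2.length_eq, List.length_range]
  have hnd : l.Nodup := hl2.nodup_iff.2 List.nodup_range
  have hmem : ∀ x, x ∈ l ↔ x < I.1 := fun x => by rw [hl2.mem_iff, List.mem_range]
  have hget : ∀ i, i < l.length → l.getD i 0 < I.1 := by
    intro i hi
    rw [← hmem, List.getD_eq_getElem _ _ hi]
    exact List.getElem_mem _
  have hadj : ∀ a b : Fin (ordF I).1, (graphOf (ordF I)).Adj a b ↔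
      adjB I.2 (l.getD a.val 0) (l.getD b.val 0) = true := by
    intro a b
    have ha : a.val < l.length := by
      have : a.val < (oo I).length := a.2
      rwa [hoo] at this
    have hb : b.val < l.length := by
      have : b.val < (oo I).length := b.2
      rwa [hoo] at this
    rw [graph_adj, adjB_iff]
    have hm : ∀ u v : ℕ, u < l.length → v < l.length → ((u, v) ∈ (ordF I).2 ↔
        u < v ∧ adjB I.2 (l.getD u 0) (l.getD v 0) = true) := by
      intro u v hu hv
      unfold ordF
      simp only [hoo, List.mem_filter, mem_prodL, List.mem_range, hu, hv, true_and, and_self,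
        Bool.and_eq_true, decide_eq_true_eq]
    rw [hm _ _ ha hb, hm _ _ hb ha]
    constructor
    · rintro ⟨_, h | h⟩
      · exact h.2
      · rw [adjB_comm]
        exact h.2
    · intro h
      have hne : a.val ≠ b.val := by
        intro he
        rw [he, adjB_iff] at h
        exact h.1 rfl
      refine ⟨hne, ?_⟩
      rcases Nat.lt_or_gt_of_ne hne with h1 | h1
      · exact Or.inl ⟨h1, h⟩
      · refine Or.inr ⟨h1, ?_⟩
        rw [adjB_comm]
        exact h
  have hlen2 : (ordF I).1 = l.length := by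
    unfold ordF
    rw [hoo]
  have hinj : ∀ i j, i < l.length → j < l.length → l.getD i 0 = l.getD j 0 → i = j := by
    intro i j hi hj h
    rw [List.getD_eq_getElem _ _ hi, List.getD_eq_getElem _ _ hj] at h
    exact (hnd.getElem_inj_iff).1 h
  let f : Fin (ordF I).1 → Fin I.1 := fun a =>
    ⟨l.getD a.val 0, hget _ (Nat.lt_of_lt_of_eq a.2 hlen2)⟩
  have hf : Function.Bijective f := by
    constructor
    · intro a b hab
      have h1 := congrArg Fin.val hab
      simp only [f] at h1
      exact Fin.ext (hinj _ _ (Nat.lt_of_lt_of_eq a.2 hlen2) (Nat.lt_of_lt_of_eq b.2 hlen2) h1)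
    · intro b
      have hb := (hmem b.val).2 b.2
      obtain ⟨i, hi, hib⟩ := List.getElem_of_mem hb
      refine ⟨⟨i, by rw [hlen2]; exact hi⟩, ?_⟩
      simp only [f]
      refine Fin.ext ?_
      simp only
      rw [List.getD_eq_getElem _ _ hi, hib]
  let e : graphOf (ordF I) ≃g graphOf I :=
    { toEquiv := Equiv.ofBijective f hf
      map_rel_iff' := by
        intro a b
        change (graphOf I).Adj (f a) (f b) ↔ _
        rw [hadj, graph_adj] }
  refine ⟨card_le _ ?_, ⟨e⟩, ?_⟩
  · exact (SimpleGraph.Iso.connected_iff e).2 hI.2.2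
  · intro v x y hvx hvy h1 h2 hxy
    rw [hadj] at h1 h2 ⊢
    have hx : x.val < l.length := Nat.lt_of_lt_of_eq x.2 hlen2
    have hy : y.val < l.length := Nat.lt_of_lt_of_eq y.2 hlen2
    exact hl3.get v.val x.val y.val hvx hvy hx hy h1 h2
      (fun h => hxy (Fin.ext (hinj _ _ hx hy h)))

end Pool.Agent.NPC.W168T3
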